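import Mathlib
import Pool.Agent.H557Z.MbDefs
import Pool.Agent.H557Z.MbEmb

namespace Pool.Agent.Results.MP_1d7d98_al.ANotHypEmbedded

open Pool.Agent.H557Z.Mb

/-- There are a finitely generated group `G` and a finitely generated almost malnormal subgroup
`H` with nonempty Morse boundary, whose limit set in the Morse boundary of `G` is the Morse
boundary of `H`, and which is not hyperbolically embedded in `G`. -/
theorem result : ∃ (G : Type) (_ : Group G) (S : Set G) (H : Subgroup G) (T : Set H),
    S.Finite ∧ Subgroup.closure S = ⊤ ∧ T.Finite ∧ Subgroup.closure T = ⊤ ∧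
    AlmostMalnormal H ∧ Nonempty (Bdry T) ∧ LimitSetIsBoundary S H T ∧ ¬ HypEmbedded H :=
  ⟨GG, inferInstance, SS, HH, TT, SS_finite, SS_gen, TT_finite, TT_gen, almost_malnormal,
    bdry_nonempty, limit_hyp, not_hypEmbedded⟩

end Pool.Agent.Results.MP_1d7d98_al.ANotHypEmbedded
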